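import Pool.Agent.H308R3.DM.Stmts

set_option autoImplicit false

namespace Pool.Agent.H71R3.DM

open Pool.Agent.H308R3.DM
open Finset
open scoped Classical BigOperators

noncomputable section

/-- end point of a list of steps -/
def endp (x : Pt) : List Stp → Pt
  | [] => x
  | s :: l => endp (x + dv s) l

/-- visited sites at the times `1, …, length` -/
def vs (x : Pt) : List Stp → Finset Pt
  | [] => ∅
  | s :: l => insert (x + dv s) (vs (x + dv s) l)

lemma ex_nonneg (F : Pt → Finset Pt → ℝ) (hF : ∀ y S, 0 ≤ F y S) :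
    ∀ (n : ℕ) (x : Pt) (S : Finset Pt), 0 ≤ ex n x S F := by
  intro n
  induction n with
  | zero => intro x S; exact hF x S
  | succ n ih =>
    intro x S
    rw [ex]
    exact div_nonneg (Finset.sum_nonneg fun s _ => ih _ _) (by norm_num)

lemma ex_forced (F : Pt → Finset Pt → ℝ) (hF : ∀ y S, 0 ≤ F y S) :
    ∀ (l : List Stp) (x : Pt) (S : Finset Pt),
      (1 / 4 : ℝ) ^ l.length * F (endp x l) (S ∪ vs x l) ≤ ex l.length x S F := by
  intro l
  induction l with
  | nil => intro x S; simp [endp, vs, ex]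
  | cons s l ih =>
    intro x S
    have h1 := ih (x + dv s) (insert (x + dv s) S)
    have h2 : ex l.length (x + dv s) (insert (x + dv s) S) F ≤
        ∑ s : Stp, ex l.length (x + dv s) (insert (x + dv s) S) F :=
      Finset.single_le_sum (f := fun s : Stp => ex l.length (x + dv s) (insert (x + dv s) S) F)
        (fun i _ => ex_nonneg F hF _ _ _) (Finset.mem_univ s)
    have h3 : insert (x + dv s) S ∪ vs (x + dv s) l = S ∪ vs x (s :: l) := by
      rw [vs]; ext z; simp only [mem_union, mem_insert]; tauto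
    rw [h3] at h1
    rw [List.length_cons, ex, pow_succ, endp]
    linarith

/-- A forced path of length `n` from `x` to `y` in `H` visiting `D`. -/
def FP (H : Finset Pt) (x y : Pt) (D : Finset Pt) (n : ℕ) : Prop :=
  ∃ l : List Stp, l.length = n ∧ endp x l = y ∧ D ⊆ vs x l ∧ vs x l ⊆ H

lemma endp_append (l l' : List Stp) : ∀ x, endp x (l ++ l') = endp (endp x l) l' := by
  induction l with
  | nil => intro x; rfl
  | cons s l ih => intro x; exact ih _

lemma vs_append (l l' : List Stp) : ∀ x, vs x (l ++ l') = vs x l ∪ vs (endp x l) l' := by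
  induction l with
  | nil => intro x; simp [vs, endp]
  | cons s l ih =>
    intro x
    rw [List.cons_append, vs, ih, vs, endp, Finset.insert_union]

lemma FP.comp {H : Finset Pt} {x y z : Pt} {D D' : Finset Pt} {n m : ℕ} (h : FP H x y D n)
    (h' : FP H y z D' m) : FP H x z (D ∪ D') (n + m) := by
  obtain ⟨l, h1, h2, h3, h4⟩ := h
  obtain ⟨l', h1', h2', h3', h4'⟩ := h'
  refine ⟨l ++ l', by simp [h1, h1'], by rw [endp_append, h2, h2'], ?_, ?_⟩
  · rw [vs_append, h2]; exact Finset.union_subset_union h3 h3'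
  · rw [vs_append, h2]; exact Finset.union_subset h4 h4'

lemma FP.mono {H : Finset Pt} {x y : Pt} {D D' : Finset Pt} {n : ℕ} (h : FP H x y D n)
    (hD : D' ⊆ D) : FP H x y D' n := by
  obtain ⟨l, h1, h2, h3, h4⟩ := h
  exact ⟨l, h1, h2, hD.trans h3, h4⟩

lemma FP.one {H : Finset Pt} {x : Pt} (s : Stp) (h : x + dv s ∈ H) :
    FP H x (x + dv s) {x + dv s} 1 :=
  ⟨[s], rfl, rfl, by simp [vs], by simpa [vs] using h⟩

lemma FP.reach {H : Finset Pt} {x y : Pt} {D : Finset Pt} {n : ℕ} (h : FP H x y D n) :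
    Reach H D x y ((1 / 4) ^ n) n := by
  intro S
  obtain ⟨l, h1, h2, h3, h4⟩ := h
  have h := ex_forced (fun y' S' => if y' = y ∧ D ⊆ S' ∧ S' ⊆ S ∪ H then (1 : ℝ) else 0)
    (fun y' S' => by split_ifs <;> norm_num) l x S
  rw [h1] at h
  rw [if_pos ⟨h2, h3.trans Finset.subset_union_right, Finset.union_subset_union_right h4⟩,
    mul_one] at h
  exact h

/-- straight line -/
lemma line1 (H : Finset Pt) (s : Stp) (f : ℕ → Pt) (hf : ∀ k, f (k + 1) = f k + dv s) (n : ℕ)
    (hH : ∀ k < n, f (k + 1) ∈ H) : ∀ k ≤ n, FP H (f 0) (f k) ∅ k := by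
  intro k
  induction k with
  | zero => intro _; exact ⟨[], rfl, rfl, by simp, by simp [vs]⟩
  | succ k ih =>
    intro hk
    have h1 := ih (by omega)
    have h2 : FP H (f k) (f k + dv s) {f k + dv s} 1 := FP.one s (by rw [← hf]; exact hH k (by omega))
    rw [← hf] at h2
    exact (h1.comp h2).mono (Finset.empty_subset _)

/-- zigzag -/
lemma side (H : Finset Pt) (s t : Stp) (f : ℕ → Pt) (hf : ∀ k, f (k + 1) = f k + dv s + dv t)
    (n : ℕ) (hH1 : ∀ k < n, f k + dv s ∈ H) (hH2 : ∀ k < n, f (k + 1) ∈ H) :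
    ∀ k ≤ n, FP H (f 0) (f k) ((Icc 1 k).image f) (2 * k) := by
  intro k
  induction k with
  | zero => intro _; exact ⟨[], rfl, rfl, by simp, by simp [vs]⟩
  | succ k ih =>
    intro hk
    have h1 := ih (by omega)
    have h2 : FP H (f k) (f k + dv s) {f k + dv s} 1 := FP.one s (hH1 k (by omega))
    have h3 : FP H (f k + dv s) (f k + dv s + dv t) {f k + dv s + dv t} 1 :=
      FP.one t (by rw [← hf]; exact hH2 k (by omega))
    rw [← hf] at h3
    have h4 := (h1.comp h2).comp h3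
    have e : 2 * k + 1 + 1 = 2 * (k + 1) := by ring
    rw [e] at h4
    refine h4.mono ?_
    intro z hz
    obtain ⟨j, hj, rfl⟩ := Finset.mem_image.mp hz
    rw [Finset.mem_Icc] at hj
    by_cases hjk : j ≤ k
    · exact Finset.mem_union_left _ (Finset.mem_union_left _
        (Finset.mem_image_of_mem f (Finset.mem_Icc.mpr ⟨hj.1, hjk⟩)))
    · have : j = k + 1 := by omega
      rw [this]
      exact Finset.mem_union_right _ (by simp)

lemma mem_sq {r : ℕ} {x : Pt} :
    x ∈ sq 0 r ↔ (-(r : ℤ) ≤ x.1 ∧ x.1 ≤ r) ∧ (-(r : ℤ) ≤ x.2 ∧ x.2 ≤ r) ∧ (x.1 - x.2) % 2 = 0 := by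
  simp only [Pool.Agent.H308R3.DM.sq, mem_filter, mem_product, mem_Icc, Prod.fst_zero, Prod.snd_zero, zero_sub, zero_add]
  tauto

theorem taskRing0 : TaskRing0 := by
  intro r hr
  have a0 := line1 (sq 0 r) (false, true) (fun k => (-(k : ℤ), (k : ℤ)))
    (fun k => by ext <;> simp [dv, sg]; ring) r
    (fun k hk => by rw [mem_sq]; simp only []; omega) r le_rfl
  have a1 := side (sq 0 r) (true, false) (true, true) (fun k => (-(r : ℤ) + 2 * k, (r : ℤ)))
    (fun k => by ext <;> simp [dv, sg] <;> ring) r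
    (fun k hk => by rw [mem_sq]; simp only [dv, sg, Prod.mk_add_mk]; simp; omega)
    (fun k hk => by rw [mem_sq]; simp only []; push_cast; omega) r le_rfl
  have a2 := side (sq 0 r) (false, false) (true, false) (fun k => ((r : ℤ), (r : ℤ) - 2 * k))
    (fun k => by ext <;> simp [dv, sg] <;> ring) r
    (fun k hk => by rw [mem_sq]; simp only [dv, sg, Prod.mk_add_mk]; simp; omega)
    (fun k hk => by rw [mem_sq]; simp only []; push_cast; omega) r le_rfl
  have a3 := side (sq 0 r) (false, true) (false, false) (fun k => ((r : ℤ) - 2 * k, -(r : ℤ)))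
    (fun k => by ext <;> simp [dv, sg] <;> ring) r
    (fun k hk => by rw [mem_sq]; simp only [dv, sg, Prod.mk_add_mk]; simp; omega)
    (fun k hk => by rw [mem_sq]; simp only []; push_cast; omega) r le_rfl
  have a4 := side (sq 0 r) (true, true) (false, true) (fun k => (-(r : ℤ), -(r : ℤ) + 2 * k))
    (fun k => by ext <;> simp [dv, sg] <;> ring) r
    (fun k hk => by rw [mem_sq]; simp only [dv, sg, Prod.mk_add_mk]; simp; omega)
    (fun k hk => by rw [mem_sq]; simp only []; push_cast; omega) r le_rfl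
  have a5 := line1 (sq 0 r) (true, false) (fun k => (-(r : ℤ) + k, (r : ℤ) - k))
    (fun k => by ext <;> simp [dv, sg] <;> ring) r
    (fun k hk => by rw [mem_sq]; simp only []; push_cast; omega) r le_rfl
  beta_reduce at a0 a1 a2 a3 a4 a5
  have e00 : ((-((0 : ℕ) : ℤ), ((0 : ℕ) : ℤ)) : Pt) = 0 := by ext <;> simp
  have e10 : ((-(r : ℤ) + 2 * ((0 : ℕ) : ℤ), (r : ℤ)) : Pt) = (-(r : ℤ), (r : ℤ)) := by ext <;> simp
  have e1r : ((-(r : ℤ) + 2 * (r : ℤ), (r : ℤ)) : Pt) = ((r : ℤ), (r : ℤ)) := by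
    ext <;> simp; ring
  have e20 : (((r : ℤ), (r : ℤ) - 2 * ((0 : ℕ) : ℤ)) : Pt) = ((r : ℤ), (r : ℤ)) := by ext <;> simp
  have e2r : (((r : ℤ), (r : ℤ) - 2 * (r : ℤ)) : Pt) = ((r : ℤ), -(r : ℤ)) := by
    ext <;> simp; ring
  have e30 : (((r : ℤ) - 2 * ((0 : ℕ) : ℤ), -(r : ℤ)) : Pt) = ((r : ℤ), -(r : ℤ)) := by ext <;> simp
  have e3r : (((r : ℤ) - 2 * (r : ℤ), -(r : ℤ)) : Pt) = (-(r : ℤ), -(r : ℤ)) := by
    ext <;> simp; ring
  have e40 : ((-(r : ℤ), -(r : ℤ) + 2 * ((0 : ℕ) : ℤ)) : Pt) = (-(r : ℤ), -(r : ℤ)) := by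
    ext <;> simp
  have e4r : ((-(r : ℤ), -(r : ℤ) + 2 * (r : ℤ)) : Pt) = (-(r : ℤ), (r : ℤ)) := by
    ext <;> simp; ring
  have e50 : ((-(r : ℤ) + ((0 : ℕ) : ℤ), (r : ℤ) - ((0 : ℕ) : ℤ)) : Pt) = (-(r : ℤ), (r : ℤ)) := by
    ext <;> simp
  have e5r : ((-(r : ℤ) + (r : ℤ), (r : ℤ) - (r : ℤ)) : Pt) = 0 := by ext <;> simp
  rw [e00] at a0
  rw [e10, e1r] at a1
  rw [e20, e2r] at a2
  rw [e30, e3r] at a3
  rw [e40, e4r] at a4
  rw [e50, e5r] at a5
  have hall := ((((a0.comp a1).comp a2).comp a3).comp a4).comp a5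
  have hn : r + 2 * r + 2 * r + 2 * r + 2 * r + r = 10 * r := by ring
  rw [hn] at hall
  refine FP.reach (hall.mono ?_)
  rintro ⟨u, v⟩ hx
  simp only [ringS, mem_filter, mem_sq] at hx
  obtain ⟨⟨⟨h1, h2⟩, ⟨h3, h4⟩, h5⟩, h6, h7⟩ := hx
  simp only [mem_union, mem_image, mem_Icc, Prod.mk.injEq, Finset.notMem_empty, false_or, or_false]
  have h8 : (|u| = r ∧ |v| ≤ r) ∨ (|v| = r ∧ |u| ≤ r) := by
    simp only [Nat.cast_zero] at h6 h7
    rcases le_total |u| |v| with h | h
    · rw [max_eq_right h] at h6 h7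
      right; omega
    · rw [max_eq_left h] at h6 h7
      left; omega
  rcases h8 with ⟨h9, h10⟩ | ⟨h9, h10⟩
  · rcases abs_eq (by positivity : (0 : ℤ) ≤ r) |>.mp h9 with rfl | rfl
    · -- u = r
      by_cases hv : v = r
      · exact Or.inl (Or.inl (Or.inl ⟨r, ⟨hr, le_rfl⟩, by omega, by omega⟩))
      · exact Or.inl (Or.inl (Or.inr ⟨((r - v) / 2).toNat, by omega, rfl, by omega⟩))
    · by_cases hv : v = -r
      · exact Or.inl (Or.inr ⟨r, ⟨hr, le_rfl⟩, by omega, by omega⟩)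
      · exact Or.inr ⟨((v + r) / 2).toNat, by omega, rfl, by omega⟩
  · rcases abs_eq (by positivity : (0 : ℤ) ≤ r) |>.mp h9 with rfl | rfl
    · by_cases hu : u = -r
      · exact Or.inr ⟨r, ⟨hr, le_rfl⟩, by omega, by omega⟩
      · exact Or.inl (Or.inl (Or.inl ⟨((u + r) / 2).toNat, by omega, by omega, rfl⟩))
    · by_cases hu : u = r
      · exact Or.inl (Or.inl (Or.inr ⟨r, ⟨hr, le_rfl⟩, by omega, by omega⟩))
      · exact Or.inl (Or.inr ⟨((r - u) / 2).toNat, by omega, by omega, rfl⟩)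

end

end Pool.Agent.H71R3.DM
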